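import Pool.Agent.Y922.AP.Stm3

/-!
# Products of good functions (helper529)
-/

set_option autoImplicit false

open Filter Topology Set

namespace Pool.Agent.Y529.AQ

open Pool.Agent.Y922.AQ

theorem t_MUL : S_MUL := by
  intro f g hf hg
  refine ⟨hf.diff.mul hg.diff, ?_, ?_⟩
  · intro c b hc
    obtain ⟨T₁, h1⟩ := hf.strip (min 1 c) b (lt_min one_pos hc)
    obtain ⟨T₂, h2⟩ := hg.strip (min 1 c) b (lt_min one_pos hc)
    refine ⟨max T₁ T₂, fun s hs hT => ?_⟩
    have e1 := h1 s hs ((le_max_left _ _).trans hT)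
    have e2 := h2 s hs ((le_max_right _ _).trans hT)
    have e3 : ‖g s‖ < 1 := e2.trans_le (min_le_left _ _)
    have e4 : ‖f s‖ < c := e1.trans_le (min_le_right _ _)
    rw [norm_mul]
    have h0 := norm_nonneg (f s)
    have h0' := norm_nonneg (g s)
    nlinarith
  · obtain ⟨σ₁, L₁, h1, hL1⟩ := hf.log
    obtain ⟨σ₂, L₂, h2, hL2⟩ := hg.log
    refine ⟨max σ₁ σ₂, fun s => L₁ s + L₂ s, h1.trans (le_max_left _ _), fun s hs => ?_⟩
    obtain ⟨a1, b1, c1⟩ := hL1 s ((le_max_left _ _).trans_lt hs)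
    obtain ⟨a2, b2, c2⟩ := hL2 s ((le_max_right _ _).trans_lt hs)
    refine ⟨a1.add a2, ?_, ?_⟩
    · rw [Complex.exp_add, b1, b2]
    · have e : deriv (fun s => L₁ s + L₂ s) s = deriv L₁ s + deriv L₂ s :=
        deriv_add a1.differentiableAt a2.differentiableAt
      rw [e, Complex.add_re]
      linarith

end Pool.Agent.Y529.AQ
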